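import Pool.Agent.H355R3.UF.Stmts

set_option autoImplicit false

/-! The residual of a wreath product is split (TaskH1 of the project H355-UF). -/

namespace Pool.Agent.H757.UF

open H355R3 RegularWreathProduct
open scoped commutatorElement

/-- the base group -/
def bh (M G : Type) [Group M] [Group G] : (G → M) →* RegularWreathProduct M G where
  toFun f := ⟨f, 1⟩
  map_one' := rfl
  map_mul' a b := by
    apply RegularWreathProduct.ext
    · funext x
      simp
    · simp

/-- the abelian case -/
theorem abelian_case (D : Formation) (M G : Type) [Group M] [Finite M] [Group G] [Finite G]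
    (hM : ∀ a b : M, a * b = b * a) (u : RegularWreathProduct M G)
    (hu : u ∈ D.residual (RegularWreathProduct M G)) :
    (⟨u.left, 1⟩ : RegularWreathProduct M G) ∈ D.residual (RegularWreathProduct M G) := by
  let W := RegularWreathProduct M G
  let S : Subgroup (W × W) :=
    MonoidHom.eqLocus ((rightHom : W →* G).comp (MonoidHom.fst W W))
      ((rightHom : W →* G).comp (MonoidHom.snd W W))
  have hS : ∀ s : S, s.1.1.right = s.1.2.right := fun s => s.2
  let p1 : S →* W := (MonoidHom.fst W W).comp S.subtype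
  let p2 : S →* W := (MonoidHom.snd W W).comp S.subtype
  have h1 : Function.Surjective p1 := fun w => ⟨⟨(w, w), rfl⟩, rfl⟩
  have h2 : Function.Surjective p2 := fun w => ⟨⟨(w, w), rfl⟩, rfl⟩
  let Om : S →* W :=
    { toFun := fun s => ⟨fun x => s.1.1.left x * (s.1.2.left x)⁻¹, s.1.1.right⟩
      map_one' := by
        apply RegularWreathProduct.ext
        · funext x
          simp
        · rfl
      map_mul' := by
        intro s t
        apply RegularWreathProduct.ext
        · funext x
          have e := hS s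
          change s.1.1.left x * t.1.1.left (s.1.1.right⁻¹ * x) *
            (s.1.2.left x * t.1.2.left (s.1.2.right⁻¹ * x))⁻¹ =
            (s.1.1.left x * (s.1.2.left x)⁻¹) * (t.1.1.left (s.1.1.right⁻¹ * x) *
              (t.1.2.left (s.1.1.right⁻¹ * x))⁻¹)
          rw [← e, mul_inv_rev]
          calc s.1.1.left x * t.1.1.left (s.1.1.right⁻¹ * x) *
                ((t.1.2.left (s.1.1.right⁻¹ * x))⁻¹ * (s.1.2.left x)⁻¹)
              = s.1.1.left x * (t.1.1.left (s.1.1.right⁻¹ * x) *
                (t.1.2.left (s.1.1.right⁻¹ * x))⁻¹) * (s.1.2.left x)⁻¹ := by group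
            _ = s.1.1.left x * ((s.1.2.left x)⁻¹ * (t.1.1.left (s.1.1.right⁻¹ * x) *
                (t.1.2.left (s.1.1.right⁻¹ * x))⁻¹)) := by
                  rw [mul_assoc, hM (t.1.1.left (s.1.1.right⁻¹ * x) *
                    (t.1.2.left (s.1.1.right⁻¹ * x))⁻¹) (s.1.2.left x)⁻¹]
            _ = s.1.1.left x * (s.1.2.left x)⁻¹ * (t.1.1.left (s.1.1.right⁻¹ * x) *
                (t.1.2.left (s.1.1.right⁻¹ * x))⁻¹) := by group
        · rfl }
  have h3 : Function.Surjective Om := by
    intro w
    refine ⟨⟨(w, ⟨1, w.right⟩), rfl⟩, ?_⟩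
    apply RegularWreathProduct.ext
    · funext x
      simp [Om]
    · rfl
  have r1 := D.map_residual p1 h1
  have r2 := D.map_residual p2 h2
  have r3 := D.map_residual Om h3
  rw [← r3] at hu
  obtain ⟨s, hs, rfl⟩ := hu
  have k1 : p1 s ∈ D.residual W := by
    rw [← r1]
    exact ⟨s, hs, rfl⟩
  have k2 : p2 s ∈ D.residual W := by
    rw [← r2]
    exact ⟨s, hs, rfl⟩
  have k3 := (D.residual W).mul_mem k1 ((D.residual W).inv_mem k2)
  have e : p1 s * (p2 s)⁻¹ = (⟨(Om s).left, 1⟩ : W) := by
    have e0 := hS s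
    apply RegularWreathProduct.ext
    · funext x
      change s.1.1.left x * (s.1.2⁻¹).left (s.1.1.right⁻¹ * x) =
        s.1.1.left x * (s.1.2.left x)⁻¹
      rw [inv_left]
      change s.1.1.left x * (s.1.2.left (s.1.2.right * (s.1.1.right⁻¹ * x)))⁻¹ =
        s.1.1.left x * (s.1.2.left x)⁻¹
      rw [← e0, mul_inv_cancel_left]
    · change s.1.1.right * (s.1.2.right)⁻¹ = 1
      rw [← e0, mul_inv_cancel]
  rw [e] at k3
  exact k3

/-- the commutators at the coordinate `1` -/
theorem comm_mem {M G : Type} [Group M] [Group G] [DecidableEq G]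
    (U : Subgroup (RegularWreathProduct M G)) [hU : U.Normal]
    (v : RegularWreathProduct M G) (hv : v ∈ U) (hv1 : v.right ≠ 1) (m m' : M) :
    bh M G (Pi.mulSingle 1 (m' * m * m'⁻¹ * m⁻¹)) ∈ U := by
  set b := bh M G (Pi.mulSingle 1 m) with hb
  set b' := bh M G (Pi.mulSingle 1 m') with hb'
  have hc : b * v * b⁻¹ * v⁻¹ ∈ U := U.mul_mem (hU.conj_mem v hv b) (U.inv_mem hv)
  set c := b * v * b⁻¹ * v⁻¹ with hcdef
  have hd : b' * c * b'⁻¹ * c⁻¹ ∈ U := U.mul_mem (hU.conj_mem c hc b') (U.inv_mem hc)
  have cr : c.right = 1 := by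
    rw [hcdef, hb]
    simp [bh]
  have cl : c.left 1 = m := by
    rw [hcdef, hb]
    simp [bh]
    rw [Pi.mulSingle_eq_of_ne (M := fun _ => M) (by simpa using hv1)]
    simp
  have e : bh M G (Pi.mulSingle 1 (m' * m * m'⁻¹ * m⁻¹)) = b' * c * b'⁻¹ * c⁻¹ := by
    apply RegularWreathProduct.ext
    · funext x
      have h1 : (b' * c * b'⁻¹ * c⁻¹).left x =
          b'.left x * c.left x * (b'.left x)⁻¹ * (c.left x)⁻¹ := by
        have hb'r : b'.right = 1 := rfl
        simp [cr, hb'r]
      rw [h1]
      change (Pi.mulSingle (1 : G) (m' * m * m'⁻¹ * m⁻¹) : G → M) x =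
        (Pi.mulSingle (1 : G) m' : G → M) x * c.left x *
          ((Pi.mulSingle (1 : G) m' : G → M) x)⁻¹ * (c.left x)⁻¹
      by_cases hx : x = 1
      · subst hx
        rw [Pi.mulSingle_eq_same, Pi.mulSingle_eq_same, cl]
      · rw [Pi.mulSingle_eq_of_ne (M := fun _ => M) hx, Pi.mulSingle_eq_of_ne (M := fun _ => M) hx]
        simp
    · have hb'r : b'.right = 1 := rfl
      simp [cr, hb'r, bh]
  rw [e]
  exact hd

theorem taskH1 : H355R3.UF.TaskH1 := by
  classical
  intro D M G _ _ _ _ hG u hu
  set U := D.residual (RegularWreathProduct M G) with hUdef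
  have hUn : U.Normal := inferInstance
  -- an element of the residual outside of the base group
  obtain ⟨v, hv, hv1⟩ : ∃ v ∈ U, v.right ≠ 1 := by
    by_contra hcon
    push Not at hcon
    apply hG
    rw [← D.map_residual (rightHom : RegularWreathProduct M G →* G) rightHom_surj, eq_bot_iff]
    rintro _ ⟨w, hw, rfl⟩
    exact hcon w hw
  -- functions with values in the commutator subgroup
  have hsingle : ∀ (g : G), ∀ k ∈ commutator M, bh M G (Pi.mulSingle g k) ∈ U := by
    intro g
    have h1 : commutator M ≤ (U.comap (bh M G)).comap (MonoidHom.mulSingle (fun _ : G => M) g) := by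
      rw [commutator_def, Subgroup.commutator_le]
      intro m' _ m _
      rw [commutatorElement_def]
      change bh M G (Pi.mulSingle g (m' * m * m'⁻¹ * m⁻¹)) ∈ U
      have h2 := hUn.conj_mem _ (comm_mem U v hv hv1 m m') (⟨1, g⟩ : RegularWreathProduct M G)
      have h3 : (⟨1, g⟩ : RegularWreathProduct M G) *
          bh M G (Pi.mulSingle 1 (m' * m * m'⁻¹ * m⁻¹)) *
          (⟨1, g⟩ : RegularWreathProduct M G)⁻¹ =
          bh M G (Pi.mulSingle g (m' * m * m'⁻¹ * m⁻¹)) := by
        apply RegularWreathProduct.ext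
        · funext x
          rw [conj_inl g _ rfl x]
          change (Pi.mulSingle (1 : G) (m' * m * m'⁻¹ * m⁻¹) : G → M) (g⁻¹ * x) =
            (Pi.mulSingle g (m' * m * m'⁻¹ * m⁻¹) : G → M) x
          by_cases hx : x = g
          · subst hx
            rw [inv_mul_cancel, Pi.mulSingle_eq_same, Pi.mulSingle_eq_same]
          · rw [Pi.mulSingle_eq_of_ne (M := fun _ => M) hx, Pi.mulSingle_eq_of_ne (M := fun _ => M)]
            intro h
            apply hx
            rw [inv_mul_eq_one] at h
            exact h.symm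
        · simp [bh]
      rw [h3] at h2
      exact h2
    exact fun k hk => h1 hk
  have hker : ∀ f : G → M, (∀ x, f x ∈ commutator M) → bh M G f ∈ U := by
    intro f hf
    have h1 : f ∈ U.comap (bh M G) := by
      apply Subgroup.pi_mem_of_mulSingle_mem
      intro i
      exact hsingle i (f i) (hf i)
    exact h1
  -- reduction to the abelian case
  let π : RegularWreathProduct M G →* RegularWreathProduct (M ⧸ commutator M) G :=
    mapLeft (QuotientGroup.mk' (commutator M))
  have hπ : Function.Surjective π := mapLeft_surj _ (QuotientGroup.mk'_surjective _)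
  have hmap := D.map_residual π hπ
  have h1 : π u ∈ D.residual (RegularWreathProduct (M ⧸ commutator M) G) := by
    rw [← hmap]
    exact ⟨u, hu, rfl⟩
  have hcomm : ∀ a b : M ⧸ commutator M, a * b = b * a := by
    intro a b
    obtain ⟨a, rfl⟩ := QuotientGroup.mk_surjective a
    obtain ⟨b, rfl⟩ := QuotientGroup.mk_surjective b
    rw [← QuotientGroup.mk_mul, ← QuotientGroup.mk_mul, QuotientGroup.eq]
    have h2 : (a * b)⁻¹ * (b * a) = ⁅b⁻¹, a⁻¹⁆ := by
      rw [commutatorElement_def]
      group
    rw [h2]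
    exact Subgroup.commutator_mem_commutator (Subgroup.mem_top _) (Subgroup.mem_top _)
  have h2 := abelian_case D (M ⧸ commutator M) G hcomm (π u) h1
  rw [← hmap] at h2
  obtain ⟨w, hw, hw'⟩ := h2
  have hw1 : w.right = 1 := congrArg RegularWreathProduct.right hw'
  have hwl : ∀ x, ((w.left x : M) : M ⧸ commutator M) = ((u.left x : M) : M ⧸ commutator M) :=
    fun x => congrFun (congrArg RegularWreathProduct.left hw') x
  have h3 : bh M G (fun x => (w.left x)⁻¹ * u.left x) ∈ U := by
    apply hker
    intro x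
    rw [← QuotientGroup.eq]
    exact hwl x
  have h4 : (⟨u.left, 1⟩ : RegularWreathProduct M G) =
      w * bh M G (fun x => (w.left x)⁻¹ * u.left x) := by
    apply RegularWreathProduct.ext
    · funext x
      simp [bh, hw1]
    · simp [bh, hw1]
  rw [h4]
  exact U.mul_mem hw h3

end Pool.Agent.H757.UF
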